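import Mathlib
import Pool.Agent.H14.Tope

set_option autoImplicit false

namespace Pool.Agent.Results.MP_04f01b_co.Counterexample

open Pool.Agent.H14.Tope Polynomial

def a : Fin 6 → Fin 4 → ℤ := ![![0, 0, 1, -1], ![0, 1, 0, 1], ![1, 0, -1, 0], ![0, 1, 0, 0], ![1,
  0, 0, -1], ![1, 0, 0, 1]]
def sL : List ℕ := [0, 32, 8, 4, 36, 20, 52, 12, 28, 60, 2, 34, 10, 42, 6, 38, 54, 14, 46, 30, 62,
  1, 33, 17, 49, 9, 25, 57, 21, 53, 29, 61, 3, 35, 51, 11, 43, 27, 59, 55, 31, 63]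
def ptL : List (List ℤ) := [[-2, -1, -1, 0], [-1, -3, 1, 2], [-5, 1, -3, -2], [-1, -1, -2, 0], [0,
  -2, -1, 1], [0, -2, -2, -1], [1, -2, -2, 0], [-4, 1, -5, -2], [1, 1, -3, -2], [3, 1, -3, -2],
  [-3, -1, -2, 2], [0, -1, 1, 2], [-2, 2, -1, 0], [0, 2, 1, 2], [-3, -1, -4, 2], [1, -1, -2, 2],
  [3, -1, -1, 2], [-1, 2, -2, 0], [1, 2, -1, 2], [0, 2, -2, -1], [1, 2, -1, 0], [-2, -2, 2, 0],
  [0, -2, 2, 1], [1, -1, 2, -2], [1, -2, 2, 0], [-3, 1, -1, -2], [-1, 1, 0, -2], [3, 1, 5, -2],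
  [1, -1, 0, -2], [2, -1, 0, -1], [1, 1, 0, -2], [3, 1, 2, -2], [-3, -1, 3, 2], [0, -1, 3, 2], [4,
  -2, 5, 3], [-1, 1, 2, 0], [0, 2, 2, 1], [0, 2, 2, -1], [1, 1, 2, 0], [5, -1, 4, 2], [0, 3, -1,
  -2], [2, 1, 1, 0]]
def circ : List (Fin 6 → ℤ) := [![-1, 0, -1, 0, 1, 0], ![1, 0, 1, 0, -1, 0], ![0, -2, 0, 2, -1,
  1], ![0, 2, 0, -2, 1, -1], ![-1, -2, -1, 2, 0, 1], ![1, 2, 1, -2, 0, -1]]
def wL : List (List ℤ) := [[1, 0, 0, 0, 2, 0, 0, 0, 1], [1, 1, 1, 1, 2, 1, 1, 1, 1], [1, 1, 1, 1,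
  2, 1, 1, 1, 1], [1, 0, -1, -1, 0, -1, -1, 0, 1], [1, 1, 1, 2, 3, 2, 1, 1, 1], [1, 1, 1, 2, 3, 2,
  1, 1, 1], [1, 0, -1, -1, 0, -1, -1, 0, 1], [1, 1, 1, 2, 3, 2, 1, 1, 1], [1, 0, -1, -1, 0, -1,
  -1, 0, 1], [1, 1, 2, 2, 3, 2, 2, 1, 1], [1, 0, 1, 0, 2, 0, 1, 0, 1], [1, 0, 0, 0, 2, 0, 0, 0,
  1], [1, 0, 0, 0, 2, 0, 0, 0, 1], [1, 1, 1, 1, 2, 1, 1, 1, 1], [1, 1, 2, 2, 3, 2, 2, 1, 1], [1,
  0, -1, -1, 0, -1, -1, 0, 1], [1, 1, 1, 2, 3, 2, 1, 1, 1], [1, 0, -1, -1, 0, -1, -1, 0, 1], [1,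
  1, 1, 2, 3, 2, 1, 1, 1], [1, 1, 1, 2, 3, 2, 1, 1, 1], [1, 0, -1, -1, 0, -1, -1, 0, 1], [1, 0,
  -1, -1, 0, -1, -1, 0, 1], [1, 1, 1, 2, 3, 2, 1, 1, 1], [1, 1, 1, 2, 3, 2, 1, 1, 1], [1, 0, -1,
  -1, 0, -1, -1, 0, 1], [1, 1, 1, 2, 3, 2, 1, 1, 1], [1, 0, -1, -1, 0, -1, -1, 0, 1], [1, 1, 2, 2,
  3, 2, 2, 1, 1], [1, 1, 1, 1, 2, 1, 1, 1, 1], [1, 0, 0, 0, 2, 0, 0, 0, 1], [1, 0, 0, 0, 2, 0, 0,
  0, 1], [1, 0, 1, 0, 2, 0, 1, 0, 1], [1, 1, 2, 2, 3, 2, 2, 1, 1], [1, 0, -1, -1, 0, -1, -1, 0,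
  1], [1, 1, 1, 2, 3, 2, 1, 1, 1], [1, 0, -1, -1, 0, -1, -1, 0, 1], [1, 1, 1, 2, 3, 2, 1, 1, 1],
  [1, 1, 1, 2, 3, 2, 1, 1, 1], [1, 0, -1, -1, 0, -1, -1, 0, 1], [1, 1, 1, 1, 2, 1, 1, 1, 1], [1,
  1, 1, 1, 2, 1, 1, 1, 1], [1, 0, 0, 0, 2, 0, 0, 0, 1]]
def D : List ℤ := [1, 5, 12, 19, 24, 29, 35, 38, 35, 29, 24, 19, 12, 5, 1]
def T : List ℤ := [42, 22, 16, 26, 76, 26, 16, 22, 42]
def s (i : Fin 42) (k : Fin 6) : Bool := (sL.getD i 0).testBit k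
def pt (i : Fin 42) (j : Fin 4) : ℤ := (ptL.getD i []).getD j 0
def w (i : Fin 42) : List ℤ := wL.getD i []

lemma cert : Cert a s pt circ where
  hpt := by decide +kernel
  hcirc := by decide +kernel
  hall := by decide +kernel
  hinj := by decide +kernel
  hdist := by decide +kernel
  hN := by norm_num

lemma hw : ∀ i, psum ((List.finRange 42).map fun j => shift (ham s i j) (w j)) = D := by
  decide +kernel

lemma hT : psum ((List.finRange 42).map w) = T := by decide +kernel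

theorem result : ∃ (d : ℕ) (A : Finset (Submodule ℝ (Fin d → ℝ))) (_ : Fintype (Chamber A)),
    IsArrangement A ∧ Even (rank A) ∧ 4 ≤ rank A ∧ Indecomposable A ∧
    (open Classical in IsUnit (varchenko A).det) ∧
    ¬ VertexTransitive (tope A) ∧ ¬ cyclotomic A.card ℚ ∣ (mag A).denom := by
  have hr : rank (arr a) = 4 := by
    apply rank_eq
    intro x hx
    have h0 := hx 0
    have h3 := hx 3
    have h4 := hx 4
    have h5 := hx 5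
    simp [a, Fin.sum_univ_succ] at h0 h3 h4 h5
    ext j; fin_cases j <;> simp <;> linarith
  let _ := cert.fin
  refine ⟨4, arr a, cert.fin, cert.isArr, by rw [hr]; decide, hr.ge,
    cert.indec (by decide +kernel), cert.unit, cert.notVT 0 1 (by decide +kernel), ?_⟩
  rw [cert.card]
  have h := cert.mag_eq w D hw
  rw [hT] at h
  apply not_dvd _ (42 + 64 * X + 38 * X ^ 2 + 38 * X ^ 4 + 64 * X ^ 5 + 42 * X ^ 6)
    ((1 + X) ^ 4 * (1 + X + X ^ 2) ^ 2 * (1 + X ^ 4)) _ 6 (by norm_num)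
  · have hne : (1 - RatFunc.X + RatFunc.X ^ 2 : RatFunc ℚ) ≠ 0 := by
      have : (1 - RatFunc.X + RatFunc.X ^ 2 : RatFunc ℚ)
          = algebraMap ℚ[X] _ (1 - X + X ^ 2) := by simp
      rw [this, map_ne_zero_iff _ (IsFractionRing.injective _ _)]
      intro e
      simpa using congrArg (eval 0) e
    apply mul_left_cancel₀ hne
    simp only [D, T, ev] at h
    simp only [map_add, map_mul, map_pow, map_one, map_ofNat, RatFunc.algebraMap_X]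
    push_cast at h
    linear_combination h
  · intro z hz e
    simp only [map_add, map_mul, map_pow, map_one, aeval_X, mul_eq_zero, pow_eq_zero_iff,
      ne_eq, OfNat.ofNat_ne_zero, not_false_eq_true] at e
    rcases e with (e | e) | e
    · exact absurd ((hz.pow_eq_one_iff_dvd 2).1 (by linear_combination (z - 1) * e)) (by decide)
    · exact absurd ((hz.pow_eq_one_iff_dvd 3).1 (by linear_combination (z - 1) * e)) (by decide)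
    · exact absurd ((hz.pow_eq_one_iff_dvd 8).1 (by linear_combination (z ^ 4 - 1) * e))
        (by decide)
  · intro e
    simpa using congrArg (eval 0) e

end Pool.Agent.Results.MP_04f01b_co.Counterexample
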